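import Pool.Agent.V11118.Liouville

/-!
A non-Liouville vertex-transitive graph with finite survival number.
-/

namespace Pool.Agent.Results.MP_70c392_co.NonLiouvilleFinite

open Pool.Agent.V11118.Survival Pool.Agent.V11118.Liouville

theorem result : ∃ (V : Type) (G : SimpleGraph V),
    Nice G ∧ ¬ IsLiouville G ∧ survival G ≤ 6 :=
  ⟨_, Pool.Agent.V11118.Products.strongZ Pool.Agent.V11118.Tree.TG,
    Pool.Agent.V11118.Liouville.nice, Pool.Agent.V11118.Liouville.not_liouville,
    Pool.Agent.V11118.Liouville.survival_le⟩

end Pool.Agent.Results.MP_70c392_co.NonLiouvilleFinite
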